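import Pool.Agent.helper88.RL.SpecL

set_option autoImplicit false

namespace Pool.Agent.RL

open Finset Pool.Agent.helper3.FT Pool.Agent.T6 Pool.Agent.RF

theorem N3 (hN2 : N2_stmt) : N3_stmt := by
  intro d d' r r' r'' v hco h1 h2 e1 e2
  have h3 : InG d r'' v := hN2.2.2.2.2.2.1 d r r'' v e1.symm h1
  have h4 : InG d' r'' v := hN2.2.2.2.2.2.1 d' r' r'' v e2.symm h2
  have hcop : IsCoprime ((d : ℕ) : OO) ((d' : ℕ) : OO) := by
    have h5 : IsCoprime (d : ℤ) (d' : ℤ) := Nat.isCoprime_iff_coprime.mpr hco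
    have h6 := h5.map (Int.castRingHom OO)
    simpa using h6
  unfold InG at h3 h4 ⊢
  rw [Nat.cast_mul]
  exact hcop.mul_dvd h3 h4

end Pool.Agent.RL

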